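import Pool.Agent.Y836.SF.Main

/-!
# Cayley graphs of residually finite groups are local limits of finite graphs
-/

set_option autoImplicit false

namespace Pool.Agent.Y836.SF

open Finset Pool.H102.DP

/-- the Cayley graph of a group with respect to a finite symmetric set `S` not containing `1` -/
def cay {Γ : Type} [Group Γ] (S : Finset Γ) (h1 : (1 : Γ) ∉ S) (hinv : ∀ s ∈ S, s⁻¹ ∈ S) :
    SimpleGraph Γ where
  Adj g h := g⁻¹ * h ∈ S
  symm := ⟨fun g h hgh => by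
    have := hinv _ hgh
    simpa using this⟩
  loopless := ⟨fun g hg => by
    apply h1
    simpa using hg⟩

theorem cay_adj {Γ : Type} [Group Γ] (S : Finset Γ) (h1 : (1 : Γ) ∉ S) (hinv : ∀ s ∈ S, s⁻¹ ∈ S)
    (g h : Γ) : (cay S h1 hinv).Adj g h ↔ g⁻¹ * h ∈ S := Iff.rfl

/-- Cayley graphs with respect to finite sets are locally finite -/
noncomputable instance cayLF {Γ : Type} [Group Γ] (S : Finset Γ) (h1 : (1 : Γ) ∉ S)
    (hinv : ∀ s ∈ S, s⁻¹ ∈ S) : (cay S h1 hinv).LocallyFinite := fun g => by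
  classical
  refine Set.Finite.fintype (Set.Finite.subset (S.image fun s => g * s).finite_toSet ?_)
  intro h hh
  rw [SimpleGraph.mem_neighborSet, cay_adj] at hh
  rw [Finset.mem_coe, Finset.mem_image]
  exact ⟨g⁻¹ * h, hh, by simp⟩

theorem cay_degree {Γ : Type} [Group Γ] (S : Finset Γ) (h1 : (1 : Γ) ∉ S)
    (hinv : ∀ s ∈ S, s⁻¹ ∈ S) (g : Γ) [Fintype ((cay S h1 hinv).neighborSet g)] :
    (cay S h1 hinv).degree g = S.card := by
  classical
  rw [← SimpleGraph.card_neighborFinset_eq_degree]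
  have h2 : (cay S h1 hinv).neighborFinset g = S.image fun s => g * s := by
    ext h
    rw [SimpleGraph.mem_neighborFinset, cay_adj, Finset.mem_image]
    constructor
    · intro hh
      exact ⟨g⁻¹ * h, hh, by simp⟩
    · rintro ⟨s, hs, rfl⟩
      simpa using hs
  rw [h2, Finset.card_image_of_injective _ (mul_right_injective g)]

/-- residually finite groups -/
def ResFin (Γ : Type) [Group Γ] : Prop :=
  ∀ g : Γ, g ≠ 1 → ∃ N : Subgroup Γ, N.Normal ∧ N.FiniteIndex ∧ g ∉ N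

theorem resfin_finset {Γ : Type} [Group Γ] (hΓ : ResFin Γ) (F : Finset Γ) (hF : ∀ g ∈ F, g ≠ 1) :
    ∃ N : Subgroup Γ, N.Normal ∧ N.FiniteIndex ∧ ∀ g ∈ F, g ∉ N := by
  classical
  induction F using Finset.induction_on with
  | empty => exact ⟨⊤, inferInstance, inferInstance, by simp⟩
  | insert a F ha ih =>
    obtain ⟨N, hN1, hN2, hN3⟩ := ih fun g hg => hF g (Finset.mem_insert_of_mem hg)
    obtain ⟨M, hM1, hM2, hM3⟩ := hΓ a (hF a (Finset.mem_insert_self a F))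
    refine ⟨N ⊓ M, inferInstance, inferInstance, fun g hg hgN => ?_⟩
    rcases Finset.mem_insert.1 hg with rfl | hg'
    · exact hM3 hgN.2
    · exact hN3 g hg' hgN.1

theorem cay_sofic {Γ : Type} [Group Γ] (hΓ : ResFin Γ) (S : Finset Γ) (h1 : (1 : Γ) ∉ S)
    (hinv : ∀ s ∈ S, s⁻¹ ∈ S) (o : Γ) : Sofic (cay S h1 hinv) o S.card := by
  classical
  intro Λ ε hε
  obtain ⟨N, hN1, hN2, hN3⟩ := resfin_finset hΓ
    (((Λ ×ˢ Λ).biUnion fun q => insert (q.1⁻¹ * q.2) (S.image fun s => (q.1⁻¹ * q.2) * s⁻¹)).filter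
      (fun g => g ≠ 1) ∪ S) (fun g hg => by
        rcases Finset.mem_union.1 hg with h | h
        · exact (Finset.mem_filter.1 h).2
        · rintro rfl
          exact h1 h)
  have e1 : ∀ y ∈ Λ, ∀ z ∈ Λ, y⁻¹ * z ∈ N → y⁻¹ * z = 1 := by
    intro y hy z hz h
    by_contra hne
    refine hN3 _ (Finset.mem_union_left _ (Finset.mem_filter.2 ⟨Finset.mem_biUnion.2
      ⟨(y, z), Finset.mem_product.2 ⟨hy, hz⟩, Finset.mem_insert_self _ _⟩, hne⟩)) h
  have e2 : ∀ y ∈ Λ, ∀ z ∈ Λ, ∀ s ∈ S, (y⁻¹ * z) * s⁻¹ ∈ N → (y⁻¹ * z) * s⁻¹ = 1 := by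
    intro y hy z hz s hs h
    by_contra hne
    refine hN3 _ (Finset.mem_union_left _ (Finset.mem_filter.2 ⟨Finset.mem_biUnion.2
      ⟨(y, z), Finset.mem_product.2 ⟨hy, hz⟩, Finset.mem_insert_of_mem
        (Finset.mem_image.2 ⟨s, hs, rfl⟩)⟩, hne⟩)) h
  have e3 : ∀ s ∈ S, s ∉ N := fun s hs => hN3 s (Finset.mem_union_right _ hs)
  let mk : Γ →* Γ ⧸ N := QuotientGroup.mk' N
  have hmk : ∀ a b : Γ, mk a = mk b ↔ a⁻¹ * b ∈ N := fun a b => QuotientGroup.eq
  have hmk1 : ∀ a : Γ, mk a = 1 ↔ a ∈ N := fun a => QuotientGroup.eq_one_iff a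
  have s1 : (1 : Γ ⧸ N) ∉ S.image mk := by
    intro h
    obtain ⟨s, hs, hs1⟩ := Finset.mem_image.1 h
    exact e3 s hs ((hmk1 s).1 hs1)
  have s2 : ∀ s ∈ S.image mk, s⁻¹ ∈ S.image mk := by
    intro s hs
    obtain ⟨s', hs', rfl⟩ := Finset.mem_image.1 hs
    exact Finset.mem_image.2 ⟨s'⁻¹, hinv s' hs', map_inv mk s'⟩
  have : Finite (Γ ⧸ N) := inferInstance
  let iF : Fintype (Γ ⧸ N) := Fintype.ofFinite _
  refine ⟨Γ ⧸ N, iF, ⟨1⟩, cay (S.image mk) s1 s2, inferInstance, ∅, fun w => ?_, ?_, ?_⟩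
  · rw [cay_degree]
    exact Finset.card_image_le
  · rw [Finset.card_empty, Nat.cast_zero]
    positivity
  · intro w _
    have hq : ∀ y z : Γ, (w * mk (o⁻¹ * y))⁻¹ * (w * mk (o⁻¹ * z)) = mk (y⁻¹ * z) := by
      intro y z
      rw [mul_inv_rev, mul_assoc, inv_mul_cancel_left, ← map_inv, ← map_mul]
      congr 1
      group
    refine ⟨fun y => w * mk (o⁻¹ * y), fun y hy z hz hyz => ?_, ?_, fun y hy z hz => ?_,
      fun y hy => ?_⟩
    · have h2 : mk (y⁻¹ * z) = 1 := by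
        rw [← hq y z]
        have h3 : w * mk (o⁻¹ * y) = w * mk (o⁻¹ * z) := hyz
        rw [h3, inv_mul_cancel]
      have h3 := e1 y hy z hz ((hmk1 _).1 h2)
      exact (inv_mul_eq_one.1 h3)
    · show w * mk (o⁻¹ * o) = w
      rw [inv_mul_cancel, map_one, mul_one]
    · rw [cay_adj, cay_adj, hq]
      constructor
      · intro h
        exact Finset.mem_image_of_mem _ h
      · intro h
        obtain ⟨s, hs, hs1⟩ := Finset.mem_image.1 h
        have h2 : mk ((y⁻¹ * z) * s⁻¹) = 1 := by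
          rw [map_mul, map_inv, hs1, mul_inv_cancel]
        have h3 := e2 y hy z hz s hs ((hmk1 _).1 h2)
        rw [mul_inv_eq_one.1 h3]
        exact hs
    · rw [cay_degree, cay_degree]
      exact Finset.card_image_le

end Pool.Agent.Y836.SF
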