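import Pool.Agent.Y836.SF.Main

/-!
# Amenable vertex-transitive graphs are local limits of finite graphs
-/

set_option autoImplicit false

namespace Pool.Agent.Y836.SF

open Finset Pool.H102.DP

variable {V : Type} (G : SimpleGraph V) [G.LocallyFinite]

theorem amen_sofic (hG : G.Connected) (d : ℕ) (hd : ∀ x, G.degree x ≤ d)
    (o : V) (htr : ∀ x : V, ∃ φ : G ≃g G, φ o = x)
    (hF : ∀ δ : ℝ, 0 < δ → ∃ A : Finset V, A.Nonempty ∧ ((bd G A).card : ℝ) ≤ δ * A.card) :
    Sofic G o d := by
  classical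
  choose φ hφ using htr
  intro Λ ε hε
  have hw : ∀ z : V, ∃ w : G.Walk o z, True := fun z => by
    obtain ⟨w⟩ := hG.preconnected o z; exact ⟨w, trivial⟩
  choose w _ using hw
  set R := Λ.sup fun z => (w z).length with hR
  have hgood : ∀ A : Finset V, ∀ x ∈ A, x ∉ nbh G (bd G A) R → ∀ z ∈ Λ, φ x z ∈ A := by
    intro A x hx hx' z hz
    have h1 : ((w z).map (φ x).toHom).length ≤ R := by
      rw [SimpleGraph.Walk.length_map]
      exact Finset.le_sup (f := fun z => (w z).length) hz
    have h2 : (φ x).toHom o = x := hφ x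
    refine mem_of_walk G A ((w z).map (φ x).toHom) R h1 ?_ ?_
    · rw [h2]; exact hx
    · rw [h2]; exact hx'
  obtain ⟨A, hA, hbd⟩ := hF (ε / (d + 1) ^ R) (by positivity)
  have hN : ((nbh G (bd G A) R).card : ℝ) ≤ ε * A.card := by
    have h1 : ((nbh G (bd G A) R).card : ℝ) ≤ ((d + 1) ^ R : ℝ) * (bd G A).card := by
      exact_mod_cast nbh_card G (bd G A) d hd R
    refine h1.trans ((mul_le_mul_of_nonneg_left hbd (by positivity)).trans (le_of_eq ?_))
    field_simp
  let H : SimpleGraph A := SimpleGraph.comap (fun x : A => x.1) G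
  let iL : H.LocallyFinite := fun v => Fintype.ofFinite _
  have hdeg : ∀ x : A, H.degree x ≤ G.degree x.1 := by
    intro x
    rw [← SimpleGraph.card_neighborFinset_eq_degree, ← SimpleGraph.card_neighborFinset_eq_degree]
    refine Finset.card_le_card_of_injOn (fun y => y.1) (fun y hy => ?_)
      (fun a _ b _ hab => Subtype.ext hab)
    have hy' : H.Adj x y := by simpa using hy
    have : G.Adj x.1 y.1 := hy'
    simpa using this
  refine ⟨A, inferInstance, hA.to_subtype, H, iL,
    univ.filter fun x : A => x.1 ∈ nbh G (bd G A) R, fun x => (hdeg x).trans (hd x.1), ?_, ?_⟩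
  · rw [Fintype.card_coe]
    refine le_trans ?_ hN
    have h1 : ((univ.filter fun x : A => x.1 ∈ nbh G (bd G A) R).card) ≤
        (nbh G (bd G A) R).card :=
      Finset.card_le_card_of_injOn (fun y => y.1) (fun y hy => (Finset.mem_filter.1 hy).2)
        (fun a _ b _ hab => Subtype.ext hab)
    exact_mod_cast h1
  · intro x hx
    have hx' : x.1 ∉ nbh G (bd G A) R := fun h => hx (Finset.mem_filter.2 ⟨Finset.mem_univ _, h⟩)
    have hm : ∀ z ∈ Λ, φ x.1 z ∈ A := hgood A x.1 x.2 hx'
    let ψ : V → A := fun z => if h : φ x.1 z ∈ A then ⟨φ x.1 z, h⟩ else x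
    have hψ : ∀ z, φ x.1 z ∈ A → (ψ z).1 = φ x.1 z := by
      intro z hz
      simp only [ψ, dif_pos hz]
    refine ⟨ψ, fun y hy z hz hyz => ?_, ?_, fun y hy z hz => ?_, fun y hy => ?_⟩
    · have h1 := congrArg Subtype.val hyz
      rw [hψ y (hm y hy), hψ z (hm z hz)] at h1
      exact (φ x.1).injective h1
    · apply Subtype.ext
      have h1 : φ x.1 o ∈ A := by rw [hφ]; exact x.2
      rw [hψ o h1, hφ]
    · show G.Adj y z ↔ G.Adj (ψ y).1 (ψ z).1
      rw [hψ y (hm y hy), hψ z (hm z hz)]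
      exact ((φ x.1).map_adj_iff).symm
    · refine (hdeg _).trans (le_of_eq ?_)
      rw [hψ y (hm y hy)]
      exact SimpleGraph.Iso.degree_eq (φ x.1) y

end Pool.Agent.Y836.SF
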