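import Pool.Agent.H102R3.DPFinal
import Pool.Agent.H102R3.DPHonest

/-!
# Random walk on dynamical percolation on local limits of finite graphs
-/

set_option autoImplicit false
set_option linter.unusedSectionVars false

namespace Pool.Agent.Y836.SF

open Finset Pool.H102.DP

section general

variable {Z : Type} [Fintype Z]

theorem sg_nonneg (A : (Z → ℝ) →ₗ[ℝ] (Z → ℝ)) (c : ℝ)
    (hA : ∀ F : Z → ℝ, (∀ z, 0 ≤ F z) → ∀ z, 0 ≤ A F z + c * F z)
    (t : ℝ) (ht : 0 ≤ t) (F : Z → ℝ) (hF : ∀ z, 0 ≤ F z) (z : Z) : 0 ≤ sg A t F z := by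
  rw [sg_shift A c, Pi.smul_apply, smul_eq_mul]
  refine mul_nonneg (Real.exp_nonneg _) ?_
  set K := A + c • LinearMap.id with hK
  have hKF : ∀ F z, K F z = A F z + c * F z := fun F z => by simp [hK]
  have hpos : ∀ (n : ℕ) z, 0 ≤ (K ^ n) F z := by
    intro n
    induction n with
    | zero => exact hF
    | succ n ih =>
      intro z
      rw [pow_succ']
      show 0 ≤ K ((K ^ n) F) z
      rw [hKF]; exact hA _ ih z
  exact HasSum.nonneg (fun n => mul_nonneg (by positivity) (hpos n z)) (sg_hasSum' K t F z)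

theorem diag_upper {U U' : Type} [Fintype U] [Fintype U'] [DecidableEq U] [DecidableEq U']
    (k : U → U → ℝ) (k' : U' → U' → ℝ)
    (ι : U → U') (hι : Function.Injective ι) (hk : ∀ x y, k x y ≤ k' (ι x) (ι y))
    (h0 : ∀ x y, 0 ≤ k' x y) (x : U) (h1 : ∑ y, k' (ι x) y ≤ 1) :
    k' (ι x) (ι x) ≤ k x x + (1 - ∑ y, k x y) := by
  have h2 : ∑ y, k' (ι x) (ι y) ≤ ∑ y', k' (ι x) y' := by
    rw [← Finset.sum_image (s := univ) (g := ι) (f := fun y' => k' (ι x) y')
      (fun a _ b _ hab => hι hab)]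
    exact Finset.sum_le_sum_of_subset_of_nonneg (Finset.subset_univ _) fun y _ _ => h0 _ _
  have h3 : k' (ι x) (ι x) + ∑ y ∈ univ.erase x, k' (ι x) (ι y) = ∑ y, k' (ι x) (ι y) :=
    Finset.add_sum_erase univ (fun y => k' (ι x) (ι y)) (Finset.mem_univ x)
  have h4 : k x x + ∑ y ∈ univ.erase x, k x y = ∑ y, k x y :=
    Finset.add_sum_erase univ (fun y => k x y) (Finset.mem_univ x)
  have h5 : ∑ y ∈ univ.erase x, k x y ≤ ∑ y ∈ univ.erase x, k' (ι x) (ι y) :=
    Finset.sum_le_sum fun y _ => hk x y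
  linarith

theorem avg_transfer {W : Type} [Fintype W] [Nonempty W] (bad : Finset W) (ε a b E : ℝ)
    (r r' : W → ℝ) (h0 : ∀ w, 0 ≤ r w) (h1 : ∀ w, r' w ≤ 1) (hb0 : 0 ≤ b) (ha1 : a ≤ 1)
    (hbad : (bad.card : ℝ) ≤ ε * Fintype.card W) (hr : ∀ w, w ∉ bad → a ≤ r w)
    (hr' : ∀ w, w ∉ bad → r' w ≤ b) (hsum : ∑ w, r w ≤ ∑ w, r' w + E * Fintype.card W) :
    a ≤ b + 2 * ε + E := by
  classical
  have hc : (0 : ℝ) < Fintype.card W := by
    exact_mod_cast Fintype.card_pos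
  have h3 : ∀ w, a - (if w ∈ bad then 1 else 0) ≤ r w := by
    intro w
    by_cases hw : w ∈ bad
    · rw [if_pos hw]
      have := h0 w
      linarith
    · rw [if_neg hw, sub_zero]
      exact hr w hw
  have h4 : ∀ w, r' w ≤ b + (if w ∈ bad then 1 else 0) := by
    intro w
    by_cases hw : w ∈ bad
    · rw [if_pos hw]
      have := h1 w
      linarith
    · rw [if_neg hw, add_zero]
      exact hr' w hw
  have h5 := Finset.sum_le_sum fun w (_ : w ∈ univ) => h3 w
  have h6 := Finset.sum_le_sum fun w (_ : w ∈ univ) => h4 w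
  have h7 : ∑ w : W, (if w ∈ bad then (1 : ℝ) else 0) = bad.card := by
    rw [← Finset.sum_filter, Finset.sum_const, nsmul_eq_mul, mul_one]
    congr 2
    ext w
    simp
  rw [Finset.sum_sub_distrib, h7, Finset.sum_const, Finset.card_univ, nsmul_eq_mul] at h5
  rw [Finset.sum_add_distrib, h7, Finset.sum_const, Finset.card_univ, nsmul_eq_mul] at h6
  have h8 : (Fintype.card W : ℝ) * a ≤ Fintype.card W * (b + 2 * ε + E) := by
    have : (Fintype.card W : ℝ) * (b + 2 * ε + E) =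
      Fintype.card W * b + 2 * (ε * Fintype.card W) + E * Fintype.card W := by ring
    rw [this]
    linarith
  exact le_of_mul_le_mul_left h8 hc

end general

section kernels

variable {V : Type} (G : SimpleGraph V) [G.LocallyFinite]

theorem srw_nonneg (Λ : Finset V) (t : ℝ) (ht : 0 ≤ t) (x y : Λ) : 0 ≤ srwKilled G Λ t x y := by
  classical
  unfold srwKilled plain
  refine sg_nonneg _ ((Fintype.card Λ : ℝ) + (∑ x, outDeg G Λ x))
    (fun F hF z => lapl_shift_pos _ _ _ (fun x => ?_) F hF z) t ht _ (fun z => ?_) _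
  · have := Finset.single_le_sum (f := fun x => outDeg G Λ x)
      (fun x _ => outDeg_nonneg G Λ x) (Finset.mem_univ x)
    linarith
  · split_ifs <;> norm_num

theorem dyn_nonneg (Λ : Finset V) (μ p t : ℝ) (hμ : 0 ≤ μ) (hp : 0 ≤ p) (hp1 : p ≤ 1)
    (ht : 0 ≤ t) (x y : Λ) : 0 ≤ dynKilled G Λ μ p t x y := by
  classical
  unfold dynKilled annealed
  refine Finset.sum_nonneg fun η _ => mul_nonneg (bern_nonneg p hp hp1 η) ?_
  refine sg_nonneg _ ((Fintype.card Λ : ℝ) + (∑ x, outDeg G Λ x) + μ * Fintype.card (Sym2 Λ))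
    (fun F hF z => ?_) t ht _ (fun z => ?_) _
  · convert gen_shift_pos _ _ μ p hμ hp hp1 _ (fun x => ?_) F hF z
    have := Finset.single_le_sum (f := fun x => outDeg G Λ x)
      (fun x _ => outDeg_nonneg G Λ x) (Finset.mem_univ x)
    linarith
  · split_ifs <;> norm_num

variable {W : Type} [Fintype W] (H : SimpleGraph W) [H.LocallyFinite]

open Classical in
theorem emb_cond (Λ : Finset V) (ι : Λ → (univ : Finset W)) (hι : Function.Injective ι)
    (hadj : ∀ x y : Λ, G.Adj x.1 y.1 ↔ H.Adj (ι x).1 (ι y).1)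
    (hdeg : ∀ x : Λ, H.degree (ι x).1 ≤ G.degree x.1) (x : Λ) :
    outDeg H univ (ι x) + ∑ y' : (univ : Finset W), (if H.Adj (ι x).1 y'.1 ∧ (∀ y, ι y ≠ y')
      then (1:ℝ) else 0) ≤ outDeg G Λ x := by
  have h1 := outDeg_add H univ (ι x)
  have h2 := outDeg_add G Λ x
  have h3 : (H.degree (ι x).1 : ℝ) ≤ G.degree x.1 := by exact_mod_cast hdeg x
  have h4 : ∑ y' : (univ : Finset W), (if H.Adj (ι x).1 y'.1 ∧ (∀ y, ι y ≠ y') then (1:ℝ) else 0) +
      ∑ y : Λ, (if H.Adj (ι x).1 (ι y).1 then (1:ℝ) else 0) ≤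
      ∑ y' : (univ : Finset W), (if H.Adj (ι x).1 y'.1 then (1:ℝ) else 0) := by
    have h6 : ∑ y : Λ, (if H.Adj (ι x).1 (ι y).1 then (1:ℝ) else 0) =
        ∑ y' : (univ : Finset W), (if (∃ y, ι y = y') then
          (if H.Adj (ι x).1 y'.1 then (1:ℝ) else 0) else 0) := by
      rw [← Finset.sum_image (s := univ) (g := ι)
        (f := fun y' => if H.Adj (ι x).1 y'.1 then (1:ℝ) else 0) (fun a _ b _ hab => hι hab),
        ← Finset.sum_filter (p := fun y' => ∃ y, ι y = y')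
          (f := fun y' => if H.Adj (ι x).1 y'.1 then (1:ℝ) else 0)]
      apply Finset.sum_congr _ (fun _ _ => rfl)
      ext y'
      simp
    rw [h6, ← Finset.sum_add_distrib]
    apply Finset.sum_le_sum
    intro y' _
    by_cases hy : ∃ y, ι y = y'
    · rw [if_neg (fun h => by obtain ⟨y, hy⟩ := hy; exact h.2 y hy), if_pos hy, zero_add]
    · rw [if_neg hy, add_zero]
      by_cases ha : H.Adj (ι x).1 y'.1
      · rw [if_pos ⟨ha, fun y h => hy ⟨y, h⟩⟩, if_pos ha]
      · rw [if_neg (fun h => ha h.1), if_neg ha]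
  have h5 : ∑ y : Λ, (if H.Adj (ι x).1 (ι y).1 then (1:ℝ) else 0) =
      ∑ y : Λ, (if G.Adj x.1 y.1 then (1:ℝ) else 0) := by
    refine Finset.sum_congr rfl fun y _ => ?_
    by_cases h : G.Adj x.1 y.1
    · rw [if_pos h, if_pos ((hadj x y).1 h)]
    · rw [if_neg h, if_neg fun h' => h ((hadj x y).2 h')]
  linarith

theorem srw_emb (Λ : Finset V) (ι : Λ → (univ : Finset W)) (hι : Function.Injective ι)
    (hadj : ∀ x y : Λ, G.Adj x.1 y.1 ↔ H.Adj (ι x).1 (ι y).1)
    (hdeg : ∀ x : Λ, H.degree (ι x).1 ≤ G.degree x.1) (t : ℝ) (ht : 0 ≤ t) (x y : Λ) :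
    srwKilled G Λ t x y ≤ srwKilled H univ t (ι x) (ι y) := by
  classical
  refine plain_embed _ _ _ _ ι hι (fun a b => hadj a b) (fun a => ?_) t ht x y
  convert emb_cond G H Λ ι hι hadj hdeg a

theorem dyn_emb (Λ : Finset V) (ι : Λ → (univ : Finset W)) (hι : Function.Injective ι)
    (hadj : ∀ x y : Λ, G.Adj x.1 y.1 ↔ H.Adj (ι x).1 (ι y).1)
    (hdeg : ∀ x : Λ, H.degree (ι x).1 ≤ G.degree x.1) (μ p t : ℝ)
    (hμ : 0 ≤ μ) (hp : 0 ≤ p) (hp1 : p ≤ 1) (ht : 0 ≤ t) (x y : Λ) :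
    dynKilled G Λ μ p t x y ≤ dynKilled H univ μ p t (ι x) (ι y) := by
  classical
  refine annealed_embed _ _ _ _ ι hι (fun a b => hadj a b) (fun a => ?_) μ p t hμ hp hp1 ht x y
  convert emb_cond G H Λ ι hι hadj hdeg a

theorem tr_lower (μ p : ℝ) (hp : 0 ≤ p) (hp1 : p ≤ 1) (t : ℝ) (ht : 0 ≤ t) :
    ∑ w : (univ : Finset W), srwKilled H univ t w w ≤
      ∑ w : (univ : Finset W), dynKilled H univ μ p t w w := by
  classical
  have h1 := trace_lower (fun u v : (univ : Finset W) => H.Adj u.1 v.1) (outDeg H univ) μ p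
    (adj_symm' H univ) hp hp1 t ht
  refine (le_trans (le_of_eq rfl) h1).trans (le_of_eq ?_)
  refine Finset.sum_congr rfl fun x _ => ?_
  unfold dynKilled
  congr!

theorem tr_upper (d : ℕ) (hd : ∀ x, H.degree x ≤ d) (μ p : ℝ) (hμ : 0 < μ) (hp : 0 < p)
    (hp1 : p ≤ 1) (t : ℝ) (ht : 0 ≤ t) :
    ∑ w : (univ : Finset W), dynKilled H univ μ p t w w ≤
      ∑ w : (univ : Finset W), srwKilled H univ (cc μ p d * t) w w +
        Real.exp (-(cc μ p d * t)) * Fintype.card W := by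
  classical
  have h1 := trace_upper (fun u v : (univ : Finset W) => H.Adj u.1 v.1) (outDeg H univ) μ p
    hp.le hp1 (adj_symm' H univ) (cc μ p d) (fun F => hc_all H d hd μ p hμ hp hp1 univ F) t ht
  have h2 : Fintype.card (univ : Finset W) = Fintype.card W := by simp
  rw [h2] at h1
  refine le_trans (le_of_eq ?_) (h1.trans (le_of_eq ?_))
  · refine Finset.sum_congr rfl fun x _ => ?_
    unfold dynKilled
    congr!
  · congr 1

end kernels

end Pool.Agent.Y836.SF
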