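import Pool.Agent.Y836.SF.Core

/-!
# Random walk on dynamical percolation on local limits of finite graphs, main part
-/

set_option autoImplicit false

namespace Pool.Agent.Y836.SF

open Finset Pool.H102.DP

/-- `(G, o)` is a local limit of finite graphs of degree at most `d`: for every finite set `Λ` of
vertices and every `ε > 0` there is a finite graph `H` of degree at most `d` such that for all but a
proportion `ε` of the vertices `w` of `H` there is an embedding of `Λ` into `H` as an induced subgraph,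
which maps `o` to `w` and does not increase the degrees. -/
def Sofic {V : Type} (G : SimpleGraph V) [G.LocallyFinite] (o : V) (d : ℕ) : Prop :=
  ∀ (Λ : Finset V) (ε : ℝ), 0 < ε →
    ∃ (W : Type) (_ : Fintype W) (_ : Nonempty W) (H : SimpleGraph W) (_ : H.LocallyFinite)
      (bad : Finset W), (∀ w, H.degree w ≤ d) ∧ (bad.card : ℝ) ≤ ε * Fintype.card W ∧
      ∀ w, w ∉ bad → ∃ φ : V → W, Set.InjOn φ Λ ∧ φ o = w ∧
        (∀ y ∈ Λ, ∀ z ∈ Λ, (G.Adj y z ↔ H.Adj (φ y) (φ z))) ∧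
        ∀ y ∈ Λ, H.degree (φ y) ≤ G.degree y

variable {V : Type} (G : SimpleGraph V) [G.LocallyFinite]

/-- the embedding of a finite set -/
def emb {W : Type} [Fintype W] (φ : V → W) (Λ : Finset V) : Λ → (univ : Finset W) :=
  fun x => ⟨φ x.1, Finset.mem_univ _⟩

theorem emb_inj {W : Type} [Fintype W] (φ : V → W) (Λ Λ' : Finset V) (hs : Λ ⊆ Λ')
    (h : Set.InjOn φ Λ') : Function.Injective (emb φ Λ) := by
  intro x y hxy
  apply Subtype.ext
  exact h (hs x.2) (hs y.2) (congrArg Subtype.val hxy)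

theorem sofic_lower (hG : G.Connected) (o : V) (d : ℕ) (hd : ∀ x, G.degree x ≤ d)
    (hS : Sofic G o d) (μ p : ℝ) (hμ : 0 < μ) (hp : 0 ≤ p) (hp1 : p ≤ 1) (t : ℝ) (ht : 0 ≤ t) :
    srwReturn G o t ≤ dynReturn G μ p o t := by
  classical
  refine srwReturn_le G o t _ fun Λ0 ho => ?_
  refine le_of_forall_pos_le_add fun η hη => ?_
  obtain ⟨R, hR⟩ := small_R (Real.exp (d * t) - 1) (η / 2) (by positivity)
  obtain ⟨W, iW, iN, H, iL, bad, hdH, hbad, hgood⟩ := hS (Λ0 ∪ nbh G {o} R) (η / 4) (by positivity)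
  have hb0 : 0 ≤ dynReturn G μ p o t :=
    (Real.exp_nonneg _).trans (dynReturn_lower G μ p hμ hp hp1 o t ht)
  have key := avg_transfer bad (η / 4) (srwKilled G Λ0 t ⟨o, ho⟩ ⟨o, ho⟩)
    (dynReturn G μ p o t + η / 2) 0
    (fun w => srwKilled H univ t ⟨w, Finset.mem_univ w⟩ ⟨w, Finset.mem_univ w⟩)
    (fun w => dynKilled H univ μ p t ⟨w, Finset.mem_univ w⟩ ⟨w, Finset.mem_univ w⟩)
    (fun w => srw_nonneg H univ t ht _ _)
    (fun w => dynKilled_le_one H μ p hμ hp hp1 univ t ht _)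
    (by linarith) (srwKilled_le_one G Λ0 t ht _) hbad
    (fun w hw => by
      obtain ⟨φ, hφ1, hφ2, hφ3, hφ4⟩ := hgood w hw
      have h1 := srw_emb G H Λ0 (emb φ Λ0) (emb_inj φ Λ0 _ Finset.subset_union_left hφ1)
        (fun x y => hφ3 x.1 (Finset.mem_union_left _ x.2) y.1 (Finset.mem_union_left _ y.2))
        (fun x => hφ4 x.1 (Finset.mem_union_left _ x.2)) t ht ⟨o, ho⟩ ⟨o, ho⟩
      have h2 : emb φ Λ0 ⟨o, ho⟩ = ⟨w, Finset.mem_univ w⟩ := Subtype.ext hφ2
      rwa [h2] at h1)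
    (fun w hw => by
      obtain ⟨φ, hφ1, hφ2, hφ3, hφ4⟩ := hgood w hw
      have h2 : emb φ (nbh G {o} R) ⟨o, self_mem_nbh G o R⟩ = ⟨w, Finset.mem_univ w⟩ :=
        Subtype.ext hφ2
      have h1 := diag_upper (fun x y => dynKilled G (nbh G {o} R) μ p t x y)
        (fun x y => dynKilled H univ μ p t x y) (emb φ (nbh G {o} R))
        (emb_inj φ _ _ Finset.subset_union_right hφ1)
        (fun x y => dyn_emb G H (nbh G {o} R) (emb φ (nbh G {o} R))
          (emb_inj φ _ _ Finset.subset_union_right hφ1)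
          (fun x y => hφ3 x.1 (Finset.mem_union_right _ x.2) y.1 (Finset.mem_union_right _ y.2))
          (fun x => hφ4 x.1 (Finset.mem_union_right _ x.2)) μ p t hμ.le hp hp1 ht x y)
        (fun x y => dyn_nonneg H univ μ p t hμ.le hp hp1 ht x y) ⟨o, self_mem_nbh G o R⟩
        (dyn_mass_le H univ μ p hμ.le hp hp1 t ht _)
      rw [h2] at h1
      have h3 := dyn_ball G hG o R d hd μ p hμ.le hp hp1 t ht
      have h4 := le_dynReturn G μ p hμ hp hp1 o (nbh G {o} R) (self_mem_nbh G o R) t ht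
      linarith)
    (by
      have h1 := tr_lower H μ p hp hp1 t ht
      have h2 := Finset.sum_coe_sort (univ : Finset W)
        (fun w => srwKilled H univ t ⟨w, Finset.mem_univ w⟩ ⟨w, Finset.mem_univ w⟩)
      have h3 := Finset.sum_coe_sort (univ : Finset W)
        (fun w => dynKilled H univ μ p t ⟨w, Finset.mem_univ w⟩ ⟨w, Finset.mem_univ w⟩)
      rw [zero_mul, add_zero, ← h2, ← h3]
      exact h1)
  linarith

theorem sofic_upper (hG : G.Connected) (o : V) (d : ℕ) (hd : ∀ x, G.degree x ≤ d)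
    (hS : Sofic G o d) (μ p : ℝ) (hμ : 0 < μ) (hp : 0 < p) (hp1 : p ≤ 1) (t : ℝ) (ht : 0 ≤ t) :
    dynReturn G μ p o t ≤ srwReturn G o (cc μ p d * t) + Real.exp (-(cc μ p d * t)) := by
  classical
  have hc0 := cc_pos μ p hμ hp d
  have hct : 0 ≤ cc μ p d * t := by positivity
  refine dynReturn_le G μ p o t _ fun Λ0 ho => ?_
  refine le_of_forall_pos_le_add fun η hη => ?_
  obtain ⟨R, hR⟩ := small_R (Real.exp (d * (cc μ p d * t)) - 1) (η / 2) (by positivity)
  obtain ⟨W, iW, iN, H, iL, bad, hdH, hbad, hgood⟩ := hS (Λ0 ∪ nbh G {o} R) (η / 4) (by positivity)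
  have hb0 : 0 ≤ srwReturn G o (cc μ p d * t) :=
    (Real.exp_nonneg _).trans (srwReturn_lower G o (cc μ p d * t) hct)
  have key := avg_transfer bad (η / 4) (dynKilled G Λ0 μ p t ⟨o, ho⟩ ⟨o, ho⟩)
    (srwReturn G o (cc μ p d * t) + η / 2) (Real.exp (-(cc μ p d * t)))
    (fun w => dynKilled H univ μ p t ⟨w, Finset.mem_univ w⟩ ⟨w, Finset.mem_univ w⟩)
    (fun w => srwKilled H univ (cc μ p d * t) ⟨w, Finset.mem_univ w⟩ ⟨w, Finset.mem_univ w⟩)
    (fun w => dyn_nonneg H univ μ p t hμ.le hp.le hp1 ht _ _)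
    (fun w => srwKilled_le_one H univ (cc μ p d * t) hct _)
    (by linarith) (dynKilled_le_one G μ p hμ hp.le hp1 Λ0 t ht _) hbad
    (fun w hw => by
      obtain ⟨φ, hφ1, hφ2, hφ3, hφ4⟩ := hgood w hw
      have h1 := dyn_emb G H Λ0 (emb φ Λ0) (emb_inj φ Λ0 _ Finset.subset_union_left hφ1)
        (fun x y => hφ3 x.1 (Finset.mem_union_left _ x.2) y.1 (Finset.mem_union_left _ y.2))
        (fun x => hφ4 x.1 (Finset.mem_union_left _ x.2)) μ p t hμ.le hp.le hp1 ht
        ⟨o, ho⟩ ⟨o, ho⟩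
      have h2 : emb φ Λ0 ⟨o, ho⟩ = ⟨w, Finset.mem_univ w⟩ := Subtype.ext hφ2
      rwa [h2] at h1)
    (fun w hw => by
      obtain ⟨φ, hφ1, hφ2, hφ3, hφ4⟩ := hgood w hw
      have h2 : emb φ (nbh G {o} R) ⟨o, self_mem_nbh G o R⟩ = ⟨w, Finset.mem_univ w⟩ :=
        Subtype.ext hφ2
      have h1 := diag_upper (fun x y => srwKilled G (nbh G {o} R) (cc μ p d * t) x y)
        (fun x y => srwKilled H univ (cc μ p d * t) x y) (emb φ (nbh G {o} R))
        (emb_inj φ _ _ Finset.subset_union_right hφ1)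
        (fun x y => srw_emb G H (nbh G {o} R) (emb φ (nbh G {o} R))
          (emb_inj φ _ _ Finset.subset_union_right hφ1)
          (fun x y => hφ3 x.1 (Finset.mem_union_right _ x.2) y.1 (Finset.mem_union_right _ y.2))
          (fun x => hφ4 x.1 (Finset.mem_union_right _ x.2)) (cc μ p d * t) hct x y)
        (fun x y => srw_nonneg H univ (cc μ p d * t) hct x y) ⟨o, self_mem_nbh G o R⟩
        (srw_mass_le H univ (cc μ p d * t) hct _)
      rw [h2] at h1
      have h3 := srw_ball G hG o R d hd (cc μ p d * t) hct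
      have h4 := le_srwReturn G o (nbh G {o} R) (self_mem_nbh G o R) (cc μ p d * t) hct
      linarith)
    (by
      have h1 := tr_upper H d hdH μ p hμ hp hp1 t ht
      have h2 := Finset.sum_coe_sort (univ : Finset W)
        (fun w => srwKilled H univ (cc μ p d * t) ⟨w, Finset.mem_univ w⟩ ⟨w, Finset.mem_univ w⟩)
      have h3 := Finset.sum_coe_sort (univ : Finset W)
        (fun w => dynKilled H univ μ p t ⟨w, Finset.mem_univ w⟩ ⟨w, Finset.mem_univ w⟩)
      rw [← h2, ← h3]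
      exact h1)
  linarith

end Pool.Agent.Y836.SF
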